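import Pool.Agent.V7H78.TC.AJ3

/-!
# Chow-Künneth decompositions from the growth of Abel-Jacobi kernels

Let `X` be a smooth projective variety over a field, for example over `ℂ`, let `W` be a Weil
cohomology theory with coefficient field `K` (Betti cohomology, `K = ℚ`), and let `C` be the theory
of cycles with coefficients in `K` modulo rational equivalence, on the class `𝒱` of the products of
copies of `X`.

Let `S` be a set of classes of cycles on `X` or on powers of `X`, and let `R(X^n)` be the
tautological rings (`tautRing`): the smallest family of graded subrings of `CH^*(X^n)` which contains
`S` and is stable under pull-backs and push-forwards along all morphisms between powers of `X`.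
Suppose that on each power of `X` some tautological class has degree different from zero, and that
the Künneth components of the diagonal of `X` are classes of tautological correspondences; so if the
Künneth components are algebraic (the standard conjecture of Künneth type for `X`) then we may take
for `S` an ample class and cycles which represent them. Let `J(X^n)` be ideals of `R(X^n)` which
consist of homologically trivial classes, contain the products of any two homologically trivial
elements of `R(X^n)`, and are stable under pull-backs and push-forwards (`IsAJ`); for example, the
elements with trivial Abel-Jacobi image (up to torsion), or the smallest family, generated by the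
products of two homologically trivial classes. Then one of the following holds:

* The ratios `dim J(X^n) / rank (R(X^n) / num)` tend to infinity, where `num` is numerical
  equivalence in `R(X^n)`.
* These ratios tend to an integer `N ≥ 0`, and `X` has a Chow-Künneth decomposition with projectors
  in `R^d(X × X)`, and the Chow motive of `X` is finite-dimensional in the sense of Kimura (some
  exterior power of the even part of this decomposition and some symmetric power of the odd part
  vanish); all the spaces `J(X^n)` are finite-dimensional and the external power `x × ⋯ × x`
  (`N + 2` factors) of every homologically trivial `x` in `R(X^n)` vanishes.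

So if `X` satisfies the standard conjecture of Künneth type but has no Chow-Künneth decomposition,
then the products of homologically trivial classes in every such system of tautological rings
grow faster than the cycles modulo numerical equivalence.

The proof: the growth law for families of ideals (`Pool/Agent/V7H5/AJ/Law.lean`), applied to the
theory of the tautological classes; compositions of two homologically trivial correspondences lie in
`J`, which gives the nilpotence of homologically trivial tautological self-correspondences
(`AJ1.lean`), and so the lifting of the Künneth projectors (`AJ3.lean`).
-/

set_option autoImplicit false

open scoped ENNReal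
open Filter Topology
open Pool.Agent.H914 Pool.Agent.H914.VarClass
open Pool.Agent.Y133.Half Pool.Agent.V7H78.TC
open Pool.Agent.N132.IXS (CycleTheory)

universe u v w

namespace Pool.Agent.V7H78.Kept.AbelJacobiGrowth

variable {k : Type u} [Field k] {𝒱 : VarClass k} {ops : CycleOps 𝒱}
  {W : WeilCohomology.{u, v} ops}

/-- The Künneth components of the diagonal of `X` are classes of tautological correspondences: for
each `i` some tautological self-correspondence of degree zero acts as the identity on `H^i(X)` and
as zero on `H^j(X)`, `j ≠ i`. -/
def HasKunneth (C : CycleTheory.{u, v, w} W) (S : Gens C) (X : 𝒱.Obj) : Prop :=
  ∀ i, ∃ z, Taut C.toTheoryData S (X.prod X) X.dim z ∧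
    ActsByProj (W.gr X) i (W.corr (valOf (C.cl _) z))

/-- **Chow-Künneth decompositions from the growth of Abel-Jacobi kernels.** -/
theorem result (C : CycleTheory.{u, v, w} W) (S : Gens C) (hS : Polarized C.toChowTheory S) (J : Spaces C) (hJ : IsAJ C S J)
    (X : 𝒱.Obj) (hX : HasKunneth C S X) :
    Tendsto (fun n => ajRatio C S J (pw X n)) atTop (𝓝 ⊤) ∨
    ∃ N : ℕ, Tendsto (fun n => ajRatio C S J (pw X n)) atTop (𝓝 N) ∧
      (∃ π, IsTautCK C S X π ∧ IsKimura C.toTheoryData X π) ∧
      ∀ n, SmallAJ C S J (pw X n) N :=
  ck_law hS hJ hX

end Pool.Agent.V7H78.Kept.AbelJacobiGrowth
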