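import Pool.Agent.V7H78.TC.Fil

/-!
# The Bloch-Beilinson filtration on tautological rings

Let `X` be a smooth projective variety over a field, `W` a Weil cohomology theory with coefficient
field `K` (Betti cohomology, `K = ℚ`), `C` the theory of cycles with coefficients in `K` modulo
rational equivalence on the class `𝒱` of the products of copies of `X`, and `S` ANY set of classes
of cycles on powers of `X`, for example an ample class and one arbitrary cycle. Let `R(X^n)` be the
tautological rings (`tautRing`): the smallest family of graded subrings of `CH^*(X^n)` which
contains `S` and is stable under pull-backs and push-forwards along all morphisms between powers of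
`X`. Suppose that some class in `R^1(X)` satisfies the hard Lefschetz theorem.

Then there is a smallest filtration `F` of the rings `R(X^n)`, `n ≥ 1`, with `F^0 = R` and `F^1` the
numerically trivial classes, which is multiplicative, stable under pull-backs and push-forwards
along all morphisms between powers of `X`, and such that the numerically trivial tautological
correspondences map `F^j` to `F^(j+1)`. Moreover one of the following holds:

* The ratios `dim R(X^n) / rank (R(X^n) / num)` tend to infinity.
* They tend to an integer `N ≥ 1`, `F^N = 0` on all powers of `X`, `F^1` is the kernel of the cycle
  class map, `X` has a Chow-Künneth decomposition `π` by tautological correspondences, and its Chow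
  motive is finite-dimensional in the sense of Kimura.

So, unless they grow faster than any multiple of the cycles modulo numerical equivalence, the
tautological rings have a filtration with the properties (1), (3), (4) of a Bloch-Beilinson
filtration and with (2) in the weaker form `F^N = 0`. The property (5) holds except for the relation
between the indices: homologically trivial tautological correspondences map `F^j` to `F^(j+1)`, so
that the tautological correspondences act on the part `π i` of `F^j/F^(j+1)` through their action on
`H^i(X)`. The restriction of any Bloch-Beilinson filtration to the tautological rings is a filtration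
of the kind considered in this case, so it contains `F`.

The existence of the filtration and the limit of the ratios come from the index law for theories of
cycles (`Pool/Agent/N132/IX`, whose main application was the full Chow ring), applied to the theory
of the tautological classes (`Pool/Agent/V7H78/TC/Sub.lean`).
-/

set_option autoImplicit false

open scoped ENNReal
open Filter Topology Module
open Pool.Agent.H914 Pool.Agent.H914.VarClass Pool.Agent.H914.VarClass.Obj
open Pool.Agent.Y133.Half Pool.Agent.V7H78.TC
open Pool.Agent.N132.IXS (ChowTheory CycleTheory)

universe u v w

namespace Pool.Agent.V7H78.Kept.TautologicalFiltration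

/-- **The Bloch-Beilinson filtration on tautological rings.** -/
theorem result {k : Type u} [Field k] {𝒱 : VarClass k} {ops : CycleOps 𝒱}
    {W : WeilCohomology.{u, v} ops} (C : CycleTheory.{u, v, w} W)
    (S : Gens C) (X : 𝒱.Obj) (hX : ∀ Y : 𝒱.Obj, IsPower X Y)
    (h : C.A X) (hh : Taut C.toTheoryData S X 1 h) (hL : IsLefschetz C X h) :
    ∃ F : ℕ → ∀ n, C.A (pw X n) → Prop, IsLeastFiltration C.toChowTheory S X F ∧
    (Tendsto (fun n => tautRatio C.toChowTheory S (pw X n)) atTop (𝓝 ⊤) ∨
    ∃ N : ℕ, 1 ≤ N ∧ Tendsto (fun n => tautRatio C.toChowTheory S (pw X n)) atTop (𝓝 N) ∧
      EndsAt C.toChowTheory X F N ∧ (∀ n x, F 1 n x → IsHom C (pw X n) x) ∧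
      ∃ π, IsTautCK C S X π ∧ IsKimura C.toTheoryData X π) :=
  filtration_law hX hh hL

end Pool.Agent.V7H78.Kept.TautologicalFiltration
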